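import Pool.Agent.H238.PH.Spec

set_option autoImplicit false

namespace Pool.Agent.H92.PH

open Pool.Agent.H238.PH
open MeasureTheory Set Filter Topology
open scoped ContDiff RealInnerProductSpace

theorem t_E : S_E := by
  intro n p β C φ v hp hβ hφ hv hw t ht
  obtain ⟨e, he⟩ : ∃ e, e = ee β φ v := ⟨_, rfl⟩
  rw [← he] at hw ht ⊢
  obtain ⟨q, hq⟩ : ∃ q, q = (p - 2) / 2 := ⟨_, rfl⟩
  rw [← hq] at hw
  have heq : ∀ s, e s = β ^ 2 * ‖φ s‖ ^ 2 + ‖v s‖ ^ 2 := fun s => by rw [he]; rfl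
  have hφc : Continuous φ := continuous_iff_continuousAt.mpr fun s => (hφ s).continuousAt
  have hec : Continuous e := by
    have : e = fun s => β ^ 2 * ‖φ s‖ ^ 2 + ‖v s‖ ^ 2 := funext heq
    rw [this]
    fun_prop
  have hpos : ∀ᶠ s in 𝓝 t, 0 < e s := hec.continuousAt.eventually (lt_mem_nhds ht)
  have ha : HasDerivAt (fun s => ‖φ s‖ ^ 2) (2 * ⟪φ t, v t⟫) t := (hφ t).norm_sq
  have hb : HasDerivAt (fun s => ‖e s ^ q • v s‖ ^ 2)
      (2 * ⟪e t ^ q • v t, -(C • (e t ^ q • φ t))⟫) t := (hw t).norm_sq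
  have hq2 : ∀ s, 0 < e s → e s ^ q * e s ^ q = e s ^ (p - 2) := by
    intro s hs
    rw [← Real.rpow_add hs]
    congr 1
    rw [hq]; ring
  have hp1 : ∀ s, 0 < e s → e s ^ (p - 1) = e s ^ (p - 2) * e s := by
    intro s hs
    have h1 := Real.rpow_add hs (p - 2) 1
    rw [Real.rpow_one] at h1
    rw [← h1]
    congr 1
    ring
  have hp3 : ∀ s, 0 < e s → e s ^ (p - 2) = e s ^ (p - 3) * e s := by
    intro s hs
    have h1 := Real.rpow_add hs (p - 3) 1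
    rw [Real.rpow_one] at h1
    rw [← h1]
    congr 1
    ring
  have hid : ∀ s, 0 < e s → ‖e s ^ q • v s‖ ^ 2 =
      e s ^ (p - 1) - β ^ 2 * ‖φ s‖ ^ 2 * e s ^ (p - 2) := by
    intro s hs
    rw [norm_smul, mul_pow, Real.norm_eq_abs, sq_abs, sq, hq2 s hs, hp1 s hs]
    have h1 : ‖v s‖ ^ 2 = e s - β ^ 2 * ‖φ s‖ ^ 2 := by rw [heq s]; ring
    rw [h1]; ring
  obtain ⟨g, hgdef⟩ : ∃ g : ℝ → ℝ,
      g = fun z => z ^ (p - 1) - β ^ 2 * ‖φ t‖ ^ 2 * z ^ (p - 2) := ⟨_, rfl⟩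
  have hg : HasDerivAt g (e t ^ (p - 3) * (e t + (p - 2) * ‖v t‖ ^ 2)) (e t) := by
    have h1 : HasDerivAt (fun z : ℝ => z ^ (p - 1)) ((p - 1) * e t ^ (p - 1 - 1)) (e t) :=
      Real.hasDerivAt_rpow_const (Or.inl ht.ne')
    have h2 : HasDerivAt (fun z : ℝ => z ^ (p - 2)) ((p - 2) * e t ^ (p - 2 - 1)) (e t) :=
      Real.hasDerivAt_rpow_const (Or.inl ht.ne')
    have h3 := h1.sub (h2.const_mul (β ^ 2 * ‖φ t‖ ^ 2))
    have h5 : e t ^ (p - 3) * (e t + (p - 2) * ‖v t‖ ^ 2) =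
        (p - 1) * e t ^ (p - 1 - 1) - β ^ 2 * ‖φ t‖ ^ 2 * ((p - 2) * e t ^ (p - 2 - 1)) := by
      have e1 : p - 1 - 1 = p - 2 := by ring
      have e2 : p - 2 - 1 = p - 3 := by ring
      rw [e1, e2, hp3 t ht]
      have h4 : β ^ 2 * ‖φ t‖ ^ 2 = e t - ‖v t‖ ^ 2 := by rw [heq t]; ring
      rw [h4]; ring
    rw [hgdef, h5]
    exact h3
  have hD : 0 < e t + (p - 2) * ‖v t‖ ^ 2 := by
    have h1 : e t + (p - 2) * ‖v t‖ ^ 2 = β ^ 2 * ‖φ t‖ ^ 2 + (p - 1) * ‖v t‖ ^ 2 := by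
      rw [heq t]; ring
    rw [h1]
    by_cases h2 : ‖v t‖ = 0
    · have h3 := heq t
      rw [h2] at h3 ⊢
      simp only [ne_eq, OfNat.ofNat_ne_zero, not_false_eq_true, zero_pow, add_zero,
        mul_zero] at h3 ⊢
      rw [← h3]; exact ht
    · have h3 : 0 < ‖v t‖ ^ 2 := by positivity
      have h4 : 0 ≤ β ^ 2 * ‖φ t‖ ^ 2 := by positivity
      have h5 : 0 < (p - 1) * ‖v t‖ ^ 2 := mul_pos (by linarith) h3
      linarith
  have hE3 : 0 < e t ^ (p - 3) := Real.rpow_pos_of_pos ht _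
  have hG0 : e t ^ (p - 3) * (e t + (p - 2) * ‖v t‖ ^ 2) ≠ 0 := (mul_pos hE3 hD).ne'
  have hDt : Tendsto (fun s => dslope g (e t) (e s)) (𝓝 t)
      (𝓝 (e t ^ (p - 3) * (e t + (p - 2) * ‖v t‖ ^ 2))) := by
    have h1 : ContinuousAt (dslope g (e t)) (e t) :=
      continuousAt_dslope_same.mpr hg.differentiableAt
    have h2 : dslope g (e t) (e t) = e t ^ (p - 3) * (e t + (p - 2) * ‖v t‖ ^ 2) := by
      rw [dslope_same, hg.deriv]
    have h3 : Tendsto (fun s => dslope g (e t) (e s)) (𝓝 t) (𝓝 (dslope g (e t) (e t))) :=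
      h1.tendsto.comp hec.continuousAt
    rwa [h2] at h3
  have hDne : ∀ᶠ s in 𝓝 t, dslope g (e t) (e s) ≠ 0 := hDt.eventually_ne hG0
  rw [hasDerivAt_iff_tendsto_slope] at ha hb ⊢
  have hEc : Tendsto (fun s => e s ^ (p - 2)) (𝓝[≠] t) (𝓝 (e t ^ (p - 2))) :=
    ((hec.continuousAt.rpow_const (Or.inl ht.ne')).tendsto).mono_left nhdsWithin_le_nhds
  have hlim := (hb.add ((ha.mul hEc).const_mul (β ^ 2))).div
    (hDt.mono_left nhdsWithin_le_nhds) hG0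
  have hval : (2 * ⟪e t ^ q • v t, -(C • (e t ^ q • φ t))⟫ +
      β ^ 2 * (2 * ⟪φ t, v t⟫ * e t ^ (p - 2))) /
        (e t ^ (p - 3) * (e t + (p - 2) * ‖v t‖ ^ 2)) =
      2 * (β ^ 2 - C) * ⟪φ t, v t⟫ * e t / (e t + (p - 2) * ‖v t‖ ^ 2) := by
    rw [inner_neg_right, inner_smul_left, inner_smul_right, inner_smul_right,
      real_inner_comm (φ t) (v t)]
    simp only [conj_trivial]
    have h1 : 2 * -(e t ^ q * (C * (e t ^ q * ⟪φ t, v t⟫))) +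
        β ^ 2 * (2 * ⟪φ t, v t⟫ * e t ^ (p - 2)) =
        e t ^ (p - 3) * (2 * (β ^ 2 - C) * ⟪φ t, v t⟫ * e t) := by
      have h2 := hq2 t ht
      have h3 := hp3 t ht
      have h4 : 2 * -(e t ^ q * (C * (e t ^ q * ⟪φ t, v t⟫))) =
          -2 * C * ⟪φ t, v t⟫ * (e t ^ q * e t ^ q) := by ring
      rw [h4, h2, h3]; ring
    rw [h1, mul_div_mul_left _ _ hE3.ne']
  rw [hval] at hlim
  refine hlim.congr' ?_
  filter_upwards [nhdsWithin_le_nhds hpos, nhdsWithin_le_nhds hDne, self_mem_nhdsWithin]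
    with s hs hs2 hs3
  have hst : s - t ≠ 0 := sub_ne_zero.mpr hs3
  have h1 : (e s - e t) * dslope g (e t) (e s) = g (e s) - g (e t) := by
    have := sub_smul_dslope g (e t) (e s)
    rwa [smul_eq_mul] at this
  have h2 : g (e s) - g (e t) = (‖e s ^ q • v s‖ ^ 2 - ‖e t ^ q • v t‖ ^ 2) +
      β ^ 2 * ((‖φ s‖ ^ 2 - ‖φ t‖ ^ 2) * e s ^ (p - 2)) := by
    rw [hid s hs, hid t ht, hgdef]
    ring
  rw [h2] at h1
  simp only [Pi.div_apply, slope_def_field]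
  rw [div_eq_div_iff hs2 hst, h1]
  field_simp

end Pool.Agent.H92.PH
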